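import Pool.Agent.H.MP_abcfaf.B

set_option autoImplicit false

open Set Filter Topology

namespace Pool.Agent.Results.MP_abcfaf_gt.Yes

universe u

/-- continuous weak selection, as a symmetric choice on pairs of distinct points -/
def CWS {X : Type u} [TopologicalSpace X] (φ : X → X → X) : Prop :=
  (∀ a b, a ≠ b → φ a b = φ b a ∧ (φ a b = a ∨ φ a b = b)) ∧
    ∀ a b, a ≠ b → ∀ W, IsOpen W → φ a b ∈ W → ∃ U V, IsOpen U ∧ IsOpen V ∧ a ∈ U ∧ b ∈ V ∧
      ∀ a' ∈ U, ∀ b' ∈ V, a' ≠ b' → φ a' b' ∈ W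

/-- king -/
def King {X : Type u} (φ : X → X → X) (z : X) : Prop :=
  ∀ x, ∃ y, (z = y ∨ z ≠ y ∧ φ z y = y) ∧ (y = x ∨ y ≠ x ∧ φ y x = x)

theorem result (X : Type u) [TopologicalSpace X] [T2Space X] [LocallyCompactSpace X]
    (h1 : ∃ φ : X → X → X, CWS φ) (h2 : ∀ φ : X → X → X, CWS φ → ∃ z, King φ z) :
    CompactSpace X := by
  classical
  obtain ⟨φ, h, g⟩ := h1
  refine Pool.Agent.H.MP_abcfaf.KS.main (r := fun a b => a ≠ b ∧ φ a b = a) (fun r k => ?_)
    ⟨fun a b e => by have := h a b e; grind, fun a b e => by have := h a b e.1; grind,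
      isOpen_iff_mem_nhds.2 fun p e => ?_⟩
  · have i := k.irr
    obtain ⟨z, hz⟩ := h2 (fun a b => if r a b then a else b) ⟨fun a b e => by
      have := k.1 a b e; have := k.2.1 a b; grind, fun a b e W w d => by
        by_cases c : r a b
        · obtain ⟨U, V, u, v, u1, v1, f⟩ := isOpen_prod_iff.1 k.2.2 a b c
          exact ⟨_, V, u.inter w, v, ⟨u1, by simpa [c] using d⟩, v1, fun s i t j _ => by
            simpa [show r s t from @f (s, t) ⟨i.1, j⟩] using i.2⟩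
        · obtain ⟨U, V, u, v, u1, v1, f⟩ := isOpen_prod_iff.1 k.flip.2.2 a b
            ((k.1 a b e).resolve_left c)
          exact ⟨U, _, u, v.inter w, u1, ⟨v1, by simpa [c] using d⟩, fun s i t j _ => by
            simpa [k.2.1 t s (@f (s, t) ⟨i, j.1⟩)] using j.2⟩⟩
    exact ⟨z, fun x => (hz x).imp fun y a => by have := k.1 z y; have := k.1 y x; grind⟩
  · obtain ⟨A, B, a, b, c, d, f⟩ := t2_separation e.1
    obtain ⟨U, V, u, v, u1, v1, k⟩ := g _ _ e.1 A a (e.2.symm ▸ c)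
    refine mem_of_superset (prod_mem_nhds ((u.inter a).mem_nhds ⟨u1, c⟩)
      ((v.inter b).mem_nhds ⟨v1, d⟩)) fun q l => ?_
    have n := f.ne_of_mem l.1.2 l.2.2
    exact ⟨n, (h _ _ n).2.resolve_right fun o =>
      disjoint_left.1 f (o ▸ k _ l.1.1 _ l.2.1 n) l.2.2⟩

end Pool.Agent.Results.MP_abcfaf_gt.Yes
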